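import Pool.Agent.J4H82.MZ.Integ

set_option autoImplicit false

open MeasureTheory Set Filter Topology

namespace J4H82.MZ

/-- dyadic boxes -/
def Bx (k : ℕ) : Set E3 := {x | ∀ i, x i ∈ Ioo ((1 / 2 : ℝ) ^ (k + 1)) ((1 / 2 : ℝ) ^ k)}

lemma measurableSet_Bx (k : ℕ) : MeasurableSet (Bx k) := by
  have : Bx k = ⋂ i : Fin 3, (fun x : E3 => x i) ⁻¹' Ioo ((1 / 2 : ℝ) ^ (k + 1)) ((1 / 2 : ℝ) ^ k) := by
    ext x; simp [Bx]
  rw [this]
  refine MeasurableSet.iInter fun i => ?_
  exact (by fun_prop : Measurable fun x : E3 => x i) measurableSet_Ioo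

lemma volume_Bx (k : ℕ) : volume (Bx k) = ENNReal.ofReal (((1 / 2 : ℝ) ^ (k + 1)) ^ 3) := by
  rw [← (PiLp.volume_preserving_toLp (Fin 3)).measure_preimage
    (measurableSet_Bx k).nullMeasurableSet]
  have : (WithLp.toLp 2 : (Fin 3 → ℝ) → E3) ⁻¹' (Bx k)
      = Set.pi univ fun _ => Ioo ((1 / 2 : ℝ) ^ (k + 1)) ((1 / 2 : ℝ) ^ k) := by
    ext x; simp [Bx]
  rw [this, Real.volume_pi_Ioo]
  simp only [Finset.prod_const, Finset.card_univ, Fintype.card_fin]
  rw [← ENNReal.ofReal_pow]
  · congr 2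
    rw [pow_succ]
    ring
  · rw [pow_succ]
    have : (0 : ℝ) < (1 / 2) ^ k := by positivity
    linarith

lemma Bx_disjoint : Pairwise (Function.onFun Disjoint Bx) := by
  have key : ∀ k m : ℕ, k < m → Disjoint (Bx k) (Bx m) := by
    intro k m hkm
    rw [Set.disjoint_left]
    intro x hx hy
    have h1 := (hx 0).1
    have h2 := (hy 0).2
    have h3 : (1 / 2 : ℝ) ^ m ≤ (1 / 2 : ℝ) ^ (k + 1) :=
      pow_le_pow_of_le_one (by norm_num) (by norm_num) hkm
    linarith
  intro k m hkm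
  rcases lt_or_gt_of_ne hkm with h | h
  · exact key k m h
  · exact (key m k h).symm

lemma KK_le_of_mem_Bx {k : ℕ} {x : E3} (hx : x ∈ Bx k) (j : Fin 3) :
    KK x j ≤ -(cK / (32 * (1 / 2 : ℝ) ^ k)) := by
  set q : ℝ := (1 / 2 : ℝ) ^ k with hq
  have hq0 : 0 < q := by positivity
  have hlow : ∀ i, q / 2 ≤ x i := by
    intro i
    have := (hx i).1
    rw [pow_succ] at this
    linarith
  have hup : ∀ i, x i ≤ q := fun i => (hx i).2.le
  have hn : ‖x‖ ^ 2 = x 0 ^ 2 + x 1 ^ 2 + x 2 ^ 2 := by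
    rw [EuclideanSpace.norm_eq, Real.sq_sqrt (by positivity)]
    simp [Fin.sum_univ_three]
  have hn1 : ‖x‖ ≤ 2 * q := by
    have h1 : ‖x‖ ^ 2 ≤ (2 * q) ^ 2 := by
      rw [hn]
      nlinarith [hlow 0, hlow 1, hlow 2, hup 0, hup 1, hup 2]
    exact le_of_sq_le_sq h1 (by positivity)
  have hx0 : 0 < ‖x‖ := by
    rw [norm_pos_iff]
    intro h
    have := hlow 0
    rw [h] at this
    simp at this
    linarith
  have hprod : q ^ 2 / 4 ≤ x j * x (j + 1) := by
    have := hlow j
    have := hlow (j + 1)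
    nlinarith
  unfold KK
  rw [neg_le_neg_iff, div_le_div_iff₀ (by positivity) (by positivity)]
  have hcK := cK_pos
  have h3 : ‖x‖ ^ 3 ≤ (2 * q) ^ 3 := pow_le_pow_left₀ hx0.le hn1 3
  calc cK * ‖x‖ ^ 3 ≤ cK * (2 * q) ^ 3 := by gcongr
    _ = cK * (q ^ 2 / 4) * (32 * q) := by ring
    _ ≤ cK * (x j * x (j + 1)) * (32 * q) := by gcongr

/-- divergence for the limiting object -/
lemma lintegral_top {ψ : E3 → ℝ} (hf : Continuous ψ) (hc : HasCompactSupport ψ) :
    ∫⁻ x, ENNReal.ofReal (Ph (fun j => vv ψ x j - KK x j)) = ⊤ := by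
  -- uniform bound on the unit-ish ball
  obtain ⟨M, hM0, hM⟩ : ∃ M : ℝ, 0 < M ∧ ∀ x : E3, ‖x‖ ≤ 2 → ∀ j, |vv ψ x j| ≤ M := by
    have hK : IsCompact (Metric.closedBall (0 : E3) 2) := isCompact_closedBall _ _
    have h1 : ∀ j, ∃ M : ℝ, ∀ x ∈ Metric.closedBall (0 : E3) 2, ‖vv ψ x j‖ ≤ M := fun j =>
      hK.exists_bound_of_continuousOn (continuous_vv hf hc j).continuousOn
    choose M hM using h1
    refine ⟨max 1 (max (M 0) (max (M 1) (M 2))), by positivity, fun x hx j => ?_⟩
    have h2 := hM j x (by simpa using hx)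
    rw [Real.norm_eq_abs] at h2
    refine h2.trans ?_
    fin_cases j <;> simp
  have hcK := cK_pos
  obtain ⟨k0, hk0⟩ : ∃ k0 : ℕ, (1 / 2 : ℝ) ^ k0 < cK / (64 * M) :=
    exists_pow_lt_of_lt_one (by positivity) (by norm_num)
  have hq : ∀ k : ℕ, (1 / 2 : ℝ) ^ (k + k0) ≤ cK / (64 * M) := by
    intro k
    refine le_trans (pow_le_pow_of_le_one (by norm_num) (by norm_num) (Nat.le_add_left k0 k)) hk0.le
  set κ : ℝ := cK ^ 3 / (64 ^ 3 * 8) with hκ
  have hκ0 : 0 < κ := by positivity
  have hbox : ∀ k : ℕ, ENNReal.ofReal κ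
      ≤ ∫⁻ x in Bx (k + k0), ENNReal.ofReal (Ph (fun j => vv ψ x j - KK x j)) := by
    intro k
    set q : ℝ := (1 / 2 : ℝ) ^ (k + k0) with hqdef
    have hq0 : 0 < q := by positivity
    have hq1 : q ≤ 1 := pow_le_one₀ (by norm_num) (by norm_num)
    have hMq : M ≤ cK / (64 * q) := by
      have := hq k
      rw [← hqdef, le_div_iff₀ (by positivity)] at this
      rw [le_div_iff₀ (by positivity)]
      nlinarith
    have hlow : ∀ x ∈ Bx (k + k0), ENNReal.ofReal ((cK / (64 * q)) ^ 3)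
        ≤ ENNReal.ofReal (Ph (fun j => vv ψ x j - KK x j)) := by
      intro x hx
      refine ENNReal.ofReal_le_ofReal (Ph_ge (by positivity) fun j => ?_)
      have h1 := KK_le_of_mem_Bx hx j
      rw [← hqdef] at h1
      have hxn : ‖x‖ ≤ 2 := by
        have hn : ‖x‖ ^ 2 = x 0 ^ 2 + x 1 ^ 2 + x 2 ^ 2 := by
          rw [EuclideanSpace.norm_eq, Real.sq_sqrt (by positivity)]
          simp [Fin.sum_univ_three]
        have hup : ∀ i, x i ≤ 1 := fun i => ((hx i).2.le).trans hq1
        have hlo : ∀ i, 0 ≤ x i := fun i => le_trans (by positivity) (hx i).1.le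
        have h1 : ‖x‖ ^ 2 ≤ 2 ^ 2 := by
          rw [hn]
          nlinarith [hlo 0, hlo 1, hlo 2, hup 0, hup 1, hup 2]
        exact le_of_sq_le_sq h1 (by positivity)
      have h2 := (abs_le.1 (hM x hxn j)).1
      have h3 : cK / (32 * q) = cK / (64 * q) + cK / (64 * q) := by field_simp; ring
      linarith
    calc ENNReal.ofReal κ = ENNReal.ofReal ((cK / (64 * q)) ^ 3) * volume (Bx (k + k0)) := by
          rw [volume_Bx, ← ENNReal.ofReal_mul (by positivity)]
          congr 1
          rw [pow_succ (1 / 2 : ℝ) (k + k0), ← hqdef, hκ]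
          field_simp
          ring
      _ = ∫⁻ x in Bx (k + k0), ENNReal.ofReal ((cK / (64 * q)) ^ 3) := by
          rw [setLIntegral_const]
      _ ≤ _ := setLIntegral_mono' (measurableSet_Bx _) hlow
  have hdisj : Pairwise (Function.onFun Disjoint (fun k => Bx (k + k0))) := by
    intro a b hab
    exact Bx_disjoint (by omega)
  rw [eq_top_iff]
  calc (⊤ : ENNReal) = ∑' _ : ℕ, ENNReal.ofReal κ := by
        rw [ENNReal.tsum_const_eq_top_of_ne_zero]
        simpa using hκ0
    _ ≤ ∑' k : ℕ, ∫⁻ x in Bx (k + k0), ENNReal.ofReal (Ph (fun j => vv ψ x j - KK x j)) :=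
        ENNReal.tsum_le_tsum hbox
    _ = ∫⁻ x in ⋃ k : ℕ, Bx (k + k0), ENNReal.ofReal (Ph (fun j => vv ψ x j - KK x j)) :=
        (lintegral_iUnion (fun k => measurableSet_Bx _) hdisj _).symm
    _ ≤ _ := setLIntegral_le_lintegral _ _

/-- the approximating bumps -/
noncomputable def bmp (n : ℕ) : ContDiffBump (0 : E3) :=
  ⟨1 / (2 * ((n : ℝ) + 1)), 1 / ((n : ℝ) + 1), by positivity, by
    rw [div_lt_div_iff_of_pos_left one_pos (by positivity) (by positivity)]
    have : (0 : ℝ) ≤ n := Nat.cast_nonneg n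
    linarith⟩

lemma tendsto_bmp : Tendsto (fun n => (bmp n).rOut) atTop (𝓝 0) :=
  tendsto_one_div_add_atTop_nhds_zero_nat

lemma ae_tendsto_vv (j : Fin 3) : ∀ᵐ x : E3,
    Tendsto (fun n => vv ((bmp n).normed volume) x j) atTop (𝓝 (KK x j)) := by
  have h := ContDiffBump.ae_convolution_tendsto_right_of_locallyIntegrable (μ := (volume : Measure E3))
    (φ := bmp) (l := atTop) (K := 2) tendsto_bmp (Eventually.of_forall fun n => by
      simp only [bmp]
      field_simp
      exact le_rfl) (locallyIntegrable_KK j)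
  filter_upwards [h] with x hx
  refine hx.congr fun n => ?_
  rw [← vv_eq_conv]

/-- the inequality fails for `KK`, `Ph` -/
theorem no_constant : ¬ ∃ C : ℝ, ∀ f : E3 → ℝ,
    ContDiff ℝ ((⊤ : ℕ∞) : WithTop ℕ∞) f → HasCompactSupport f → ∫ x, f x = 0 →
      |∫ x, Ph (fun j => ∫ y, KK (x - y) j * f y)| ≤ C * (∫ x, |f x|) ^ 3 := by
  rintro ⟨C, hC⟩
  set ψ : E3 → ℝ := (bmp 0).normed volume with hψ
  have hψs : ContDiff ℝ ((⊤ : ℕ∞) : WithTop ℕ∞) ψ := (bmp 0).contDiff_normed
  have hψc : HasCompactSupport ψ := (bmp 0).hasCompactSupport_normed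
  set f : ℕ → E3 → ℝ := fun n y => ψ y - (bmp n).normed volume y with hf
  have hfs : ∀ n, ContDiff ℝ ((⊤ : ℕ∞) : WithTop ℕ∞) (f n) := fun n =>
    hψs.sub (bmp n).contDiff_normed
  have hfc : ∀ n, HasCompactSupport (f n) := fun n =>
    hψc.sub (bmp n).hasCompactSupport_normed
  have hf0 : ∀ n, ∫ x, f n x = 0 := by
    intro n
    rw [hf]
    simp only
    rw [integral_sub (bmp 0).integrable_normed (bmp n).integrable_normed,
      (bmp 0).integral_normed, (bmp n).integral_normed, sub_self]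
  have hf1 : ∀ n, ∫ x, |f n x| ≤ 2 := by
    intro n
    calc ∫ x, |f n x| ≤ ∫ x, (ψ x + (bmp n).normed volume x) := by
          refine integral_mono_of_nonneg (Eventually.of_forall fun y => abs_nonneg _)
            ((bmp 0).integrable_normed.add (bmp n).integrable_normed)
            (Eventually.of_forall fun y => ?_)
          simp only [hf]
          have h1 : 0 ≤ ψ y := (bmp 0).nonneg_normed y
          have h2 : 0 ≤ (bmp n).normed volume y := (bmp n).nonneg_normed y
          rw [abs_le]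
          constructor <;> linarith
      _ = 2 := by
          rw [integral_add (bmp 0).integrable_normed (bmp n).integrable_normed,
            (bmp 0).integral_normed, (bmp n).integral_normed]
          norm_num
  have hbound : ∀ n, ∫⁻ x, ENNReal.ofReal (Ph (vv (f n) x)) ≤ ENNReal.ofReal (|C| * 8) := by
    intro n
    rw [← ofReal_integral_eq_lintegral_ofReal
      (integrable_Ph_vv (hfs n).continuous (hfc n) (hf0 n))
      (Eventually.of_forall fun x => Ph_nonneg _)]
    refine ENNReal.ofReal_le_ofReal ?_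
    have h1 := hC (f n) (hfs n) (hfc n) (hf0 n)
    have h2 : (0 : ℝ) ≤ ∫ x, |f n x| := integral_nonneg fun x => abs_nonneg _
    calc ∫ x, Ph (vv (f n) x) ≤ |∫ x, Ph (vv (f n) x)| := le_abs_self _
      _ ≤ C * (∫ x, |f n x|) ^ 3 := h1
      _ ≤ |C| * (∫ x, |f n x|) ^ 3 := by gcongr; exact le_abs_self _
      _ ≤ |C| * 2 ^ 3 := by
          gcongr
          exact hf1 n
      _ = |C| * 8 := by norm_num
  have hlim : ∀ᵐ x : E3, Tendsto (fun n => ENNReal.ofReal (Ph (vv (f n) x))) atTop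
      (𝓝 (ENNReal.ofReal (Ph (fun j => vv ψ x j - KK x j)))) := by
    filter_upwards [ae_tendsto_vv 0, ae_tendsto_vv 1, ae_tendsto_vv 2] with x h0 h1 h2
    refine (ENNReal.continuous_ofReal.tendsto _).comp ((continuous_Ph.tendsto _).comp ?_)
    rw [tendsto_pi_nhds]
    intro j
    have h3 : Tendsto (fun n => vv ((bmp n).normed volume) x j) atTop (𝓝 (KK x j)) := by
      fin_cases j
      · exact h0
      · exact h1
      · exact h2
    have h4 : ∀ n, vv (f n) x j = vv ψ x j - vv ((bmp n).normed volume) x j := by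
      intro n
      unfold vv
      rw [← integral_sub (integrable_KK_mul hψs.continuous hψc x j)
        (integrable_KK_mul (bmp n).continuous_normed (bmp n).hasCompactSupport_normed x j)]
      refine integral_congr_ae (Eventually.of_forall fun y => ?_)
      simp only [hf]
      ring
    simp_rw [h4]
    exact tendsto_const_nhds.sub h3
  have hmeas : ∀ n, Measurable (fun x : E3 => ENNReal.ofReal (Ph (vv (f n) x))) := by
    intro n
    refine Measurable.ennreal_ofReal ?_
    exact (continuous_Ph.comp (continuous_pi fun j =>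
        continuous_vv (hfs n).continuous (hfc n) j)).measurable
  have hfatou := lintegral_liminf_le (μ := (volume : Measure E3)) (u := atTop) hmeas
  have h5 : ∫⁻ x : E3, liminf (fun n => ENNReal.ofReal (Ph (vv (f n) x))) atTop
      = ∫⁻ x, ENNReal.ofReal (Ph (fun j => vv ψ x j - KK x j)) := by
    refine lintegral_congr_ae ?_
    filter_upwards [hlim] with x hx
    exact hx.liminf_eq
  rw [h5, lintegral_top hψs.continuous hψc] at hfatou
  have h6 : liminf (fun n => ∫⁻ x, ENNReal.ofReal (Ph (vv (f n) x))) atTop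
      ≤ ENNReal.ofReal (|C| * 8) := by
    refine liminf_le_of_le (by isBoundedDefault) fun b hb => ?_
    obtain ⟨n, hn⟩ := hb.exists
    exact hn.trans (hbound n)
  exact absurd (top_le_iff.1 (hfatou.trans h6)) ENNReal.ofReal_ne_top

end J4H82.MZ
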