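import Pool.Agent.J4H82.MZ.Phi

set_option autoImplicit false

open MeasureTheory Set Filter Topology

namespace J4H82.MZ

/-- the singular integral -/
noncomputable def vv (f : E3 → ℝ) (x : E3) (j : Fin 3) : ℝ := ∫ y, KK (x - y) j * f y

lemma vv_eq_conv (f : E3 → ℝ) (j : Fin 3) :
    (fun x => vv f x j) = convolution f (fun z => KK z j) (ContinuousLinearMap.lsmul ℝ ℝ) volume := by
  ext x
  unfold vv convolution
  refine integral_congr_ae (Eventually.of_forall fun y => ?_)
  simp [mul_comm]

lemma continuous_vv {f : E3 → ℝ} (hf : Continuous f) (hc : HasCompactSupport f) (j : Fin 3) :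
    Continuous (fun x => vv f x j) := by
  rw [vv_eq_conv]
  exact hc.continuous_convolution_left _ hf (locallyIntegrable_KK j)

lemma vv_far {f : E3 → ℝ} (hf : Continuous f) (hc : HasCompactSupport f) (h0 : ∫ x, f x = 0)
    {R : ℝ} (hR : 0 < R) (hsupp : ∀ y, R < ‖y‖ → f y = 0) (j : Fin 3) {x : E3}
    (hx : 2 * R ≤ ‖x‖) : |vv f x j| ≤ (cK * (58 * R) * ∫ y, |f y|) / ‖x‖ ^ 2 := by
  have hfi : Integrable f := hf.integrable_of_hasCompactSupport hc
  have hx0 : 0 < ‖x‖ := by linarith
  have h1 : vv f x j = ∫ y, (KK (x - y) j - KK x j) * f y := by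
    unfold vv
    have h2 : ∀ y, (KK (x - y) j - KK x j) * f y = KK (x - y) j * f y - KK x j * f y := by
      intro y; ring
    simp_rw [h2]
    rw [integral_sub (integrable_KK_mul hf hc x j) (hfi.const_mul _), integral_const_mul, h0,
      mul_zero, sub_zero]
  rw [h1]
  calc |∫ y, (KK (x - y) j - KK x j) * f y|
      ≤ ∫ y, |(KK (x - y) j - KK x j) * f y| := abs_integral_le_integral_abs
    _ ≤ ∫ y, cK * (58 * R / ‖x‖ ^ 2) * |f y| := by
        refine integral_mono_of_nonneg (Eventually.of_forall fun y => abs_nonneg _)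
          (hfi.abs.const_mul _) (Eventually.of_forall fun y => ?_)
        simp only
        by_cases hy : R < ‖y‖
        · rw [hsupp y hy]; simp
        · push Not at hy
          rw [abs_mul]
          refine mul_le_mul_of_nonneg_right ?_ (abs_nonneg _)
          refine (KK_sub_le j (by linarith) hx0).trans ?_
          refine mul_le_mul_of_nonneg_left ?_ cK_pos.le
          gcongr
    _ = _ := by
        rw [integral_const_mul]
        ring

lemma vv_bound {f : E3 → ℝ} (hf : Continuous f) (hc : HasCompactSupport f) (h0 : ∫ x, f x = 0)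
    (j : Fin 3) : ∃ C : ℝ, 0 ≤ C ∧ ∀ x, |vv f x j| ≤ C * ((1 + ‖x‖) ^ 2)⁻¹ := by
  obtain ⟨R, hR, hsupp⟩ : ∃ R : ℝ, 0 < R ∧ ∀ y, R < ‖y‖ → f y = 0 := by
    obtain ⟨R, hR⟩ := hc.isCompact.isBounded.subset_closedBall (0 : E3)
    refine ⟨max R 1, by positivity, fun y hy => ?_⟩
    by_contra hne
    have h1 : y ∈ tsupport f := subset_tsupport f hne
    have h2 := hR h1
    rw [mem_closedBall_zero_iff] at h2
    have := le_max_left R 1
    linarith
  have hK : IsCompact (Metric.closedBall (0 : E3) (2 * R)) := isCompact_closedBall _ _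
  have hcont : Continuous (fun x => (1 + ‖x‖) ^ 2 * |vv f x j|) := by
    have := continuous_vv hf hc j
    fun_prop
  obtain ⟨M, hM⟩ := hK.exists_bound_of_continuousOn hcont.continuousOn
  set I := ∫ y, |f y| with hI
  have hI0 : 0 ≤ I := integral_nonneg fun y => abs_nonneg _
  set A := cK * (58 * R) * I with hA
  have hcK := cK_pos
  have hA0 : 0 ≤ A := by positivity
  set D := (1 + 1 / (2 * R)) ^ 2 with hD
  refine ⟨max M (A * D), le_max_of_le_right (by positivity), fun x => ?_⟩
  have hp : 0 < (1 + ‖x‖) ^ 2 := by positivity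
  rw [← div_eq_mul_inv, le_div_iff₀ hp, mul_comm]
  by_cases hx : ‖x‖ ≤ 2 * R
  · have h1 := hM x (by simpa using hx)
    rw [Real.norm_eq_abs, abs_of_nonneg (by positivity)] at h1
    exact h1.trans (le_max_left _ _)
  · push Not at hx
    have h1 := vv_far hf hc h0 hR hsupp j hx.le
    have hx0 : 0 < ‖x‖ := by linarith
    refine le_trans ?_ (le_max_right _ _)
    have h2 : (1 + ‖x‖) ≤ (1 + 1 / (2 * R)) * ‖x‖ := by
      have h3 : 1 ≤ 1 / (2 * R) * ‖x‖ := by
        rw [div_mul_eq_mul_div, one_mul, le_div_iff₀ (by positivity)]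
        linarith
      nlinarith
    calc (1 + ‖x‖) ^ 2 * |vv f x j| ≤ ((1 + 1 / (2 * R)) * ‖x‖) ^ 2 * (A / ‖x‖ ^ 2) := by
          gcongr
      _ = A * D := by
          rw [hD]
          field_simp

lemma integrable_Ph_vv {f : E3 → ℝ} (hf : Continuous f) (hc : HasCompactSupport f)
    (h0 : ∫ x, f x = 0) : Integrable (fun x => Ph (vv f x)) := by
  obtain ⟨C, hC0, hC⟩ := vv_bound hf hc h0 0
  have hi : Integrable (fun x : E3 => C ^ 3 * (1 + ‖x‖) ^ (-(6 : ℝ))) := by
    refine (integrable_one_add_norm ?_).const_mul _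
    rw [finrank_euclideanSpace_fin]; norm_num
  refine hi.mono' ?_ (Eventually.of_forall fun x => ?_)
  · refine Continuous.aestronglyMeasurable ?_
    exact continuous_Ph.comp (continuous_pi fun j => continuous_vv hf hc j)
  · rw [Real.norm_eq_abs, abs_of_nonneg (Ph_nonneg _)]
    refine (Ph_le (by positivity) (hC x)).trans (le_of_eq ?_)
    rw [mul_pow, Real.rpow_neg (by positivity), show (6 : ℝ) = ((6 : ℕ) : ℝ) by norm_num,
      Real.rpow_natCast, inv_pow, ← pow_mul]

end J4H82.MZ
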