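import Pool.Agent.J4H82.MZ.Scalar

set_option autoImplicit false

open MeasureTheory Set
open scoped FourierTransform SchwartzMap

namespace J4H82.MZ

/-- the Fourier integral in the normalisation of the frozen statement -/
noncomputable def fh (f : E3 → ℝ) (ξ : E3) : ℂ :=
  ∫ y, Complex.exp (-(2 * (Real.pi : ℂ) * Complex.I * ((inner ℝ y ξ : ℝ) : ℂ))) * ((f y : ℝ) : ℂ)

lemma exists_schwartz {f : E3 → ℝ} (hf : ContDiff ℝ ((⊤ : ℕ∞) : WithTop ℕ∞) f)
    (hc : HasCompactSupport f) : ∃ φ : 𝓢(E3, ℂ), ∀ ξ, φ ξ = fh f ξ := by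
  have h1 : HasCompactSupport (fun y => ((f y : ℝ) : ℂ)) := hc.comp_left (g := Complex.ofReal) rfl
  have h2 : ContDiff ℝ ((⊤ : ℕ∞) : WithTop ℕ∞) (fun y => ((f y : ℝ) : ℂ)) :=
    Complex.ofRealCLM.contDiff.comp hf
  refine ⟨𝓕 (h1.toSchwartzMap h2), fun ξ => ?_⟩
  rw [SchwartzMap.fourier_coe, Real.fourier_eq']
  unfold fh
  refine integral_congr_ae (Filter.Eventually.of_forall fun y => ?_)
  simp only [smul_eq_mul, HasCompactSupport.toSchwartzMap_toFun]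
  congr 2
  push_cast
  ring

lemma continuous_fh {f : E3 → ℝ} (hf : ContDiff ℝ ((⊤ : ℕ∞) : WithTop ℕ∞) f)
    (hc : HasCompactSupport f) : Continuous (fh f) := by
  obtain ⟨φ, hφ⟩ := exists_schwartz hf hc
  have : fh f = φ := by ext ξ; exact (hφ ξ).symm
  rw [this]
  exact φ.continuous

lemma integrable_fh {f : E3 → ℝ} (hf : ContDiff ℝ ((⊤ : ℕ∞) : WithTop ℕ∞) f)
    (hc : HasCompactSupport f) : Integrable (fh f) := by
  obtain ⟨φ, hφ⟩ := exists_schwartz hf hc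
  have : fh f = φ := by ext ξ; exact (hφ ξ).symm
  rw [this]
  exact φ.integrable

lemma norm_fh_le (f : E3 → ℝ) (ξ : E3) : ‖fh f ξ‖ ≤ ∫ y, |f y| := by
  unfold fh
  refine (norm_integral_le_integral_norm _).trans (le_of_eq ?_)
  refine integral_congr_ae (Filter.Eventually.of_forall fun y => ?_)
  simp only [norm_mul, Complex.norm_real, Real.norm_eq_abs]
  have : ‖Complex.exp (-(2 * (Real.pi : ℂ) * Complex.I * ((inner ℝ y ξ : ℝ) : ℂ)))‖ = 1 := by
    rw [Complex.norm_exp]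
    simp
  rw [this, one_mul]

lemma integrable_gauss {b : ℝ} (hb : 0 < b) :
    Integrable (fun ξ : E3 => Real.exp (-b * ‖ξ‖ ^ 2)) := by
  have h := (GaussianFourier.integrable_cexp_neg_mul_sq_norm_add (V := E3) (b := (b : ℂ))
    (by simpa using hb) 0 0).norm
  refine h.congr (Filter.Eventually.of_forall fun ξ => ?_)
  simp only [zero_mul, add_zero]
  rw [Complex.norm_exp]
  congr 1
  simp [pow_two]

lemma abs_coord_le (ξ : E3) (i : Fin 3) : |ξ i| ≤ ‖ξ‖ := by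
  have := PiLp.norm_apply_le ξ i
  simpa using this

lemma abs_coord_mul_le (ξ : E3) (i k : Fin 3) : |ξ i * ξ k| ≤ ‖ξ‖ ^ 2 := by
  rw [abs_mul, pow_two]
  exact mul_le_mul (abs_coord_le ξ i) (abs_coord_le ξ k) (abs_nonneg _) (norm_nonneg _)

lemma integrable_poly_gauss {b : ℝ} (hb : 0 < b) (j : Fin 3) :
    Integrable (fun ξ : E3 => (ξ j * ξ (j + 1)) * Real.exp (-b * ‖ξ‖ ^ 2)) := by
  refine ((integrable_gauss (half_pos hb)).const_mul (2 / b)).mono' ?_ ?_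
  · exact Continuous.aestronglyMeasurable (by fun_prop)
  · filter_upwards with ξ
    rw [norm_mul, Real.norm_eq_abs, Real.norm_eq_abs, Real.abs_exp]
    have h1 := abs_coord_mul_le ξ j (j + 1)
    have h2 : ‖ξ‖ ^ 2 ≤ 2 / b * Real.exp (b / 2 * ‖ξ‖ ^ 2) := by
      have h3 := Real.add_one_le_exp (b / 2 * ‖ξ‖ ^ 2)
      have h4 : b / 2 * ‖ξ‖ ^ 2 ≤ Real.exp (b / 2 * ‖ξ‖ ^ 2) := by linarith
      have h5 : ‖ξ‖ ^ 2 = 2 / b * (b / 2 * ‖ξ‖ ^ 2) := by field_simp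
      rw [h5]
      have : b / 2 * (2 / b * (b / 2 * ‖ξ‖ ^ 2)) = b / 2 * ‖ξ‖ ^ 2 := by field_simp
      rw [this]
      gcongr
    calc |ξ j * ξ (j + 1)| * Real.exp (-b * ‖ξ‖ ^ 2)
        ≤ (2 / b * Real.exp (b / 2 * ‖ξ‖ ^ 2)) * Real.exp (-b * ‖ξ‖ ^ 2) := by
          gcongr
          exact h1.trans h2
      _ = 2 / b * Real.exp (-(b / 2) * ‖ξ‖ ^ 2) := by
          rw [mul_assoc, ← Real.exp_add]
          congr 2
          ring

/-- the Gaussian regularisation of the kernel -/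
noncomputable def Gt (t : ℝ) (j : Fin 3) (z : E3) : ℝ :=
  -((z j * z (j + 1)) * (t ^ (-(7 / 2) : ℝ) * Real.exp (-(Real.pi * ‖z‖ ^ 2 / t))))

lemma g3_sub (b : ℝ) (x y ξ : E3) : g3 b (x - y) ξ
    = Complex.exp (-(b : ℂ) * (‖ξ‖ : ℂ) ^ 2)
      * Complex.exp (-(2 * (Real.pi : ℂ) * Complex.I * ((inner ℝ y ξ : ℝ) : ℂ)))
      * Complex.exp (2 * (Real.pi : ℂ) * Complex.I * ((inner ℝ x ξ : ℝ) : ℂ)) := by
  unfold g3
  rw [← Complex.exp_add, ← Complex.exp_add, inner_sub_left]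
  congr 1
  push_cast
  ring

lemma gauss_three' {t : ℝ} (ht : 0 < t) (z : E3) (j : Fin 3) :
    ∫ ξ : E3, ((ξ j : ℝ) : ℂ) * ((ξ (j + 1) : ℝ) : ℂ) * g3 (Real.pi * t) z ξ
      = ((Gt t j z : ℝ) : ℂ) := by
  rw [gauss_three (by positivity) z j]
  congr 1
  unfold Gt
  have h1 : Real.pi / (Real.pi * t) = t⁻¹ := by field_simp
  have h2 : -Real.pi ^ 2 * ‖z‖ ^ 2 / (Real.pi * t) = -(Real.pi * ‖z‖ ^ 2 / t) := by field_simp
  have h3 : Real.pi ^ 2 / (Real.pi * t) ^ 2 = t ^ (-2 : ℝ) := by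
    rw [Real.rpow_neg ht.le, show (2 : ℝ) = ((2 : ℕ) : ℝ) by norm_num, Real.rpow_natCast]
    field_simp
  have h4 : t⁻¹ ^ (3 / 2 : ℝ) = t ^ (-(3 / 2) : ℝ) := by
    rw [Real.inv_rpow ht.le, Real.rpow_neg ht.le]
  have h5 : t ^ (-(7 / 2) : ℝ) = t ^ (-2 : ℝ) * t ^ (-(3 / 2) : ℝ) := by
    rw [← Real.rpow_add ht]; norm_num
  rw [h1, h2, h3, h4, h5]
  ring

/-- for fixed time: frequency side equals space side -/
lemma fixed_time {f : E3 → ℝ} (hf : ContDiff ℝ ((⊤ : ℕ∞) : WithTop ℕ∞) f)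
    (hc : HasCompactSupport f) (x : E3) (j : Fin 3) {t : ℝ} (ht : 0 < t) :
    ∫ ξ : E3, ((ξ j * ξ (j + 1) : ℝ) : ℂ) * (Real.exp (-(Real.pi * t) * ‖ξ‖ ^ 2) : ℂ)
        * fh f ξ * Complex.exp (2 * (Real.pi : ℂ) * Complex.I * ((inner ℝ x ξ : ℝ) : ℂ))
      = ∫ y : E3, ((Gt t j (x - y) * f y : ℝ) : ℂ) := by
  have hfi : Integrable f := hf.continuous.integrable_of_hasCompactSupport hc
  have hb : 0 < Real.pi * t := by positivity
  have h1 : ∀ ξ : E3, ((ξ j * ξ (j + 1) : ℝ) : ℂ) * (Real.exp (-(Real.pi * t) * ‖ξ‖ ^ 2) : ℂ)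
        * fh f ξ * Complex.exp (2 * (Real.pi : ℂ) * Complex.I * ((inner ℝ x ξ : ℝ) : ℂ))
      = ∫ y : E3, ((ξ j : ℝ) : ℂ) * ((ξ (j + 1) : ℝ) : ℂ) * g3 (Real.pi * t) (x - y) ξ
          * ((f y : ℝ) : ℂ) := by
    intro ξ
    unfold fh
    rw [← integral_const_mul, ← integral_mul_const]
    refine integral_congr_ae (Filter.Eventually.of_forall fun y => ?_)
    simp only [g3_sub]
    push_cast
    ring
  rw [integral_congr_ae (Filter.Eventually.of_forall h1)]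
  rw [integral_integral_swap]
  · refine integral_congr_ae (Filter.Eventually.of_forall fun y => ?_)
    simp only
    rw [integral_mul_const, gauss_three' ht]
    push_cast
    ring
  · have h2 := (integrable_poly_gauss hb j).mul_prod hfi
    refine h2.mono ?_ (Filter.Eventually.of_forall fun p => ?_)
    · refine Continuous.aestronglyMeasurable ?_
      have hfc := hf.continuous
      unfold g3
      simp only [Function.uncurry_def]
      fun_prop
    · simp only [Function.uncurry, norm_mul, norm_g3, Complex.norm_real]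
      rw [Real.norm_eq_abs (Real.exp _), Real.abs_exp]

end J4H82.MZ
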