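import Pool.Agent.J4H82.MZ.Kernel

set_option autoImplicit false

open MeasureTheory Set
open scoped FourierTransform SchwartzMap

namespace J4H82.MZ

/-- the constant of the kernel -/
noncomputable def cK : ℝ := Real.pi ^ 2 * ((1 / Real.pi) ^ (3 / 2 : ℝ) * Real.Gamma (3 / 2))

lemma cK_pos : 0 < cK := by
  unfold cK
  have : 0 < Real.Gamma (3 / 2) := Real.Gamma_pos_of_pos (by norm_num)
  positivity

/-- the kernel -/
noncomputable def KK (z : E3) (j : Fin 3) : ℝ := -(cK * (z j * z (j + 1)) / ‖z‖ ^ 3)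

lemma KK_aux {z : E3} (hz : z ≠ 0) :
    IntegrableOn (fun t : ℝ => t ^ (-(5 / 2) : ℝ) * Real.exp (-(Real.pi * ‖z‖ ^ 2 / t))) (Ioi 0) ∧
    ∫ t in Ioi (0 : ℝ), t ^ (-(5 / 2) : ℝ) * Real.exp (-(Real.pi * ‖z‖ ^ 2 / t))
      = (1 / Real.pi) ^ (3 / 2 : ℝ) * Real.Gamma (3 / 2) / ‖z‖ ^ 3 := by
  have hz' : 0 < ‖z‖ := norm_pos_iff.2 hz
  have hr : 0 < Real.pi * ‖z‖ ^ 2 := by positivity
  refine ⟨intble_x hr, ?_⟩
  rw [int_x hr]
  have h1 : 1 / (Real.pi * ‖z‖ ^ 2) = (1 / Real.pi) * (1 / ‖z‖) ^ 2 := by field_simp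
  rw [h1, Real.mul_rpow (by positivity) (by positivity), ← Real.rpow_natCast (1 / ‖z‖) 2,
    ← Real.rpow_mul (by positivity)]
  have h2 : ((2 : ℕ) : ℝ) * (3 / 2) = ((3 : ℕ) : ℝ) := by norm_num
  rw [h2, Real.rpow_natCast, one_div_pow]
  ring

lemma t_mul_Gt {t : ℝ} (ht : 0 < t) (j : Fin 3) (z : E3) :
    Real.pi ^ 2 * t * Gt t j z
      = -(Real.pi ^ 2 * (z j * z (j + 1)))
        * (t ^ (-(5 / 2) : ℝ) * Real.exp (-(Real.pi * ‖z‖ ^ 2 / t))) := by
  unfold Gt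
  have h : t * t ^ (-(7 / 2) : ℝ) = t ^ (-(5 / 2) : ℝ) := by
    nth_rewrite 1 [← Real.rpow_one t]
    rw [← Real.rpow_add ht]
    norm_num
  rw [← h]
  ring

lemma intble_Gt {z : E3} (hz : z ≠ 0) (j : Fin 3) :
    IntegrableOn (fun t : ℝ => Real.pi ^ 2 * t * Gt t j z) (Ioi 0) := by
  have h := (KK_aux hz).1.const_mul (-(Real.pi ^ 2 * (z j * z (j + 1))))
  exact IntegrableOn.congr_fun h (fun t ht => (t_mul_Gt ht j z).symm) measurableSet_Ioi

lemma int_Gt {z : E3} (hz : z ≠ 0) (j : Fin 3) :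
    ∫ t in Ioi (0 : ℝ), Real.pi ^ 2 * t * Gt t j z = KK z j := by
  rw [setIntegral_congr_fun measurableSet_Ioi (fun t ht => t_mul_Gt ht j z),
    integral_const_mul, (KK_aux hz).2]
  unfold KK cK
  ring

lemma int_abs_Gt {z : E3} (hz : z ≠ 0) (j : Fin 3) :
    ∫ t in Ioi (0 : ℝ), |Real.pi ^ 2 * t * Gt t j z| = |KK z j| := by
  have h1 : ∀ t ∈ Ioi (0 : ℝ), |Real.pi ^ 2 * t * Gt t j z|
      = |-(Real.pi ^ 2 * (z j * z (j + 1)))|
        * (t ^ (-(5 / 2) : ℝ) * Real.exp (-(Real.pi * ‖z‖ ^ 2 / t))) := by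
    intro t ht
    have ht' : (0 : ℝ) < t := ht
    rw [t_mul_Gt ht' j z, abs_mul]
    congr 1
    rw [abs_of_nonneg]
    positivity
  rw [setIntegral_congr_fun measurableSet_Ioi h1, integral_const_mul, (KK_aux hz).2]
  have h2 : (1 / Real.pi) ^ (3 / 2 : ℝ) * Real.Gamma (3 / 2) / ‖z‖ ^ 3
      = |(1 / Real.pi) ^ (3 / 2 : ℝ) * Real.Gamma (3 / 2) / ‖z‖ ^ 3| := by
    have : 0 < Real.Gamma (3 / 2) := Real.Gamma_pos_of_pos (by norm_num)
    rw [abs_of_nonneg]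
    positivity
  rw [h2, ← abs_mul]
  congr 1
  unfold KK cK
  ring

lemma measurable_KK (j : Fin 3) : Measurable (fun z : E3 => KK z j) := by
  unfold KK
  fun_prop

lemma abs_KK_le (z : E3) (j : Fin 3) : |KK z j| ≤ cK * ‖z‖⁻¹ := by
  unfold KK
  rw [abs_neg, abs_div, abs_mul, abs_of_pos cK_pos, abs_pow, abs_norm]
  by_cases hz : z = 0
  · simp [hz]
  have hz' : 0 < ‖z‖ := norm_pos_iff.2 hz
  rw [div_le_iff₀ (by positivity)]
  have h := abs_coord_mul_le z j (j + 1)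
  have h2 : cK * ‖z‖⁻¹ * ‖z‖ ^ 3 = cK * ‖z‖ ^ 2 := by field_simp
  rw [h2]
  exact mul_le_mul_of_nonneg_left h cK_pos.le

lemma locallyIntegrable_KK (j : Fin 3) : LocallyIntegrable (fun z : E3 => KK z j) volume := by
  refine locallyIntegrable_of_norm_le_rpow (C := cK) (α := 1) (by simp) (by simp)
    (Filter.Eventually.of_forall fun z => ?_) (measurable_KK j).aestronglyMeasurable
  rw [Real.norm_eq_abs, Real.rpow_neg_one]
  exact abs_KK_le z j

lemma integrable_KK_mul {f : E3 → ℝ} (hf : Continuous f) (hc : HasCompactSupport f) (x : E3)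
    (j : Fin 3) : Integrable (fun y => KK (x - y) j * f y) := by
  have h := hc.convolutionExists_left (L := ContinuousLinearMap.mul ℝ ℝ) hf
    (locallyIntegrable_KK j) x
  unfold ConvolutionExistsAt at h
  refine h.congr (Filter.Eventually.of_forall fun y => ?_)
  simp [mul_comm]

lemma int_freq {ξ : E3} (hξ : ξ ≠ 0) :
    IntegrableOn (fun t : ℝ => Real.pi ^ 2 * t * Real.exp (-(Real.pi * t) * ‖ξ‖ ^ 2)) (Ioi 0) ∧
    ∫ t in Ioi (0 : ℝ), Real.pi ^ 2 * t * Real.exp (-(Real.pi * t) * ‖ξ‖ ^ 2) = 1 / ‖ξ‖ ^ 4 := by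
  have hz' : 0 < ‖ξ‖ := norm_pos_iff.2 hξ
  have hr : 0 < Real.pi * ‖ξ‖ ^ 2 := by positivity
  have h1 : ∀ t : ℝ, Real.pi ^ 2 * (t * Real.exp (-((Real.pi * ‖ξ‖ ^ 2) * t)))
      = Real.pi ^ 2 * t * Real.exp (-(Real.pi * t) * ‖ξ‖ ^ 2) := by
    intro t
    have h2 : -((Real.pi * ‖ξ‖ ^ 2) * t) = -(Real.pi * t) * ‖ξ‖ ^ 2 := by ring
    rw [h2]
    ring
  constructor
  · have h := (intble_t hr).const_mul (Real.pi ^ 2)
    exact IntegrableOn.congr_fun h (fun t _ => h1 t) measurableSet_Ioi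
  · rw [← setIntegral_congr_fun measurableSet_Ioi (fun t _ => h1 t), integral_const_mul, int_t hr]
    field_simp

/-- the multiplier with a bounded Schwartz factor is integrable -/
lemma integrable_mult {f : E3 → ℝ} (hf : ContDiff ℝ ((⊤ : ℕ∞) : WithTop ℕ∞) f)
    (hc : HasCompactSupport f) (j : Fin 3) :
    Integrable (fun ξ : E3 => |ξ j * ξ (j + 1)| / ‖ξ‖ ^ 4 * ‖fh f ξ‖) := by
  have hm : AEStronglyMeasurable (fun ξ : E3 => |ξ j * ξ (j + 1)| / ‖ξ‖ ^ 4 * ‖fh f ξ‖) volume := by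
    have h1 : Measurable (fun ξ : E3 => |ξ j * ξ (j + 1)| / ‖ξ‖ ^ 4) := by fun_prop
    exact (h1.mul (continuous_fh hf hc).norm.measurable).aestronglyMeasurable
  have hb : ∀ ξ : E3, |ξ j * ξ (j + 1)| / ‖ξ‖ ^ 4 ≤ ‖ξ‖ ^ (-(2 : ℝ)) := by
    intro ξ
    by_cases hz : ξ = 0
    · simp [hz]
    have hz' : 0 < ‖ξ‖ := norm_pos_iff.2 hz
    rw [Real.rpow_neg hz'.le, show (2 : ℝ) = ((2 : ℕ) : ℝ) by norm_num, Real.rpow_natCast,
      div_le_iff₀ (by positivity)]
    have h2 : (‖ξ‖ ^ 2)⁻¹ * ‖ξ‖ ^ 4 = ‖ξ‖ ^ 2 := by field_simp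
    rw [h2]
    exact abs_coord_mul_le ξ j (j + 1)
  have h1 : IntegrableOn (fun ξ : E3 => |ξ j * ξ (j + 1)| / ‖ξ‖ ^ 4 * ‖fh f ξ‖)
      (Metric.ball 0 1) := by
    refine integrableOn_ball_of_norm_le_rpow (C := ∫ y, |f y|) (α := 2) (by simp)
      (by rw [finrank_euclideanSpace_fin]; norm_num) (Filter.Eventually.of_forall fun ξ => ?_) hm
    rw [norm_mul, norm_norm, Real.norm_eq_abs, abs_of_nonneg (by positivity), mul_comm]
    exact mul_le_mul (norm_fh_le f ξ) (hb ξ) (by positivity)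
      (integral_nonneg fun y => abs_nonneg _)
  have h2 : IntegrableOn (fun ξ : E3 => |ξ j * ξ (j + 1)| / ‖ξ‖ ^ 4 * ‖fh f ξ‖)
      (Metric.ball 0 1)ᶜ := by
    refine Integrable.mono' ((integrable_fh hf hc).norm.integrableOn) hm.restrict ?_
    refine (ae_restrict_iff' measurableSet_ball.compl).2 (Filter.Eventually.of_forall ?_)
    intro ξ hξ
    have hξ' : 1 ≤ ‖ξ‖ := by simpa using hξ
    rw [norm_mul, norm_norm, Real.norm_eq_abs, abs_of_nonneg (by positivity)]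
    have h3 : |ξ j * ξ (j + 1)| / ‖ξ‖ ^ 4 ≤ 1 := by
      rw [div_le_one (by positivity)]
      refine (abs_coord_mul_le ξ j (j + 1)).trans ?_
      exact pow_le_pow_right₀ hξ' (by norm_num)
    calc |ξ j * ξ (j + 1)| / ‖ξ‖ ^ 4 * ‖fh f ξ‖ ≤ 1 * ‖fh f ξ‖ := by gcongr
      _ = _ := one_mul _
  have := h1.union h2
  rwa [union_compl_self, integrableOn_univ] at this

/-- the multiplier identity -/
theorem mult_identity {f : E3 → ℝ} (hf : ContDiff ℝ ((⊤ : ℕ∞) : WithTop ℕ∞) f)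
    (hc : HasCompactSupport f) (x : E3) (j : Fin 3) :
    ((∫ y, KK (x - y) j * f y : ℝ) : ℂ)
      = ∫ ξ : E3, ((ξ j * ξ (j + 1) / ‖ξ‖ ^ 4 : ℝ) : ℂ) * fh f ξ
          * Complex.exp (2 * (Real.pi : ℂ) * Complex.I * ((inner ℝ x ξ : ℝ) : ℂ)) := by
  have hfc := hf.continuous
  -- space side
  have hne : ∀ᵐ y : E3, x - y ≠ 0 := by
    have : ({x}ᶜ : Set E3) ∈ ae (volume : Measure E3) := by
      rw [mem_ae_iff, compl_compl]
      exact measure_singleton x
    filter_upwards [this] with y hy h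
    exact hy (by simpa using (sub_eq_zero.1 h).symm)
  have hS : ((∫ y, KK (x - y) j * f y : ℝ) : ℂ)
      = ∫ y : E3, ∫ t in Ioi (0 : ℝ), ((Real.pi ^ 2 * t * Gt t j (x - y) * f y : ℝ) : ℂ) := by
    rw [← integral_complex_ofReal]
    refine integral_congr_ae ?_
    filter_upwards [hne] with y hy
    rw [integral_complex_ofReal]
    congr 1
    rw [integral_mul_const, int_Gt hy]
  have hswap1 : ∫ y : E3, ∫ t in Ioi (0 : ℝ), ((Real.pi ^ 2 * t * Gt t j (x - y) * f y : ℝ) : ℂ)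
      = ∫ t in Ioi (0 : ℝ), ∫ y : E3, ((Real.pi ^ 2 * t * Gt t j (x - y) * f y : ℝ) : ℂ) := by
    rw [integral_integral_swap]
    have hmeas : AEStronglyMeasurable
        (Function.uncurry fun (y : E3) (t : ℝ) =>
          ((Real.pi ^ 2 * t * Gt t j (x - y) * f y : ℝ) : ℂ))
        ((volume : Measure E3).prod ((volume : Measure ℝ).restrict (Ioi 0))) := by
      refine Measurable.aestronglyMeasurable ?_
      simp only [Function.uncurry_def]
      refine Complex.measurable_ofReal.comp ?_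
      unfold Gt
      have hfm : Measurable f := hfc.measurable
      fun_prop
    rw [integrable_prod_iff hmeas]
    constructor
    · filter_upwards [hne] with y hy
      have := ((intble_Gt hy j).mul_const (f y)).ofReal (𝕜 := ℂ)
      exact this
    · have h1 : (fun y : E3 => ∫ t, ‖Function.uncurry (fun (y : E3) (t : ℝ) =>
          ((Real.pi ^ 2 * t * Gt t j (x - y) * f y : ℝ) : ℂ)) (y, t)‖
            ∂((volume : Measure ℝ).restrict (Ioi 0)))
          =ᵐ[volume] fun y => ‖KK (x - y) j * f y‖ := by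
        filter_upwards [hne] with y hy
        simp only [Function.uncurry, Complex.norm_real, Real.norm_eq_abs]
        rw [abs_mul, ← int_abs_Gt hy j, ← integral_mul_const]
        refine integral_congr_ae (Filter.Eventually.of_forall fun t => ?_)
        simp only
        rw [abs_mul]
      exact (integrable_KK_mul hfc hc x j).norm.congr h1.symm
  have hmid : ∀ t ∈ Ioi (0 : ℝ),
      ∫ y : E3, ((Real.pi ^ 2 * t * Gt t j (x - y) * f y : ℝ) : ℂ)
      = ∫ ξ : E3, ((ξ j * ξ (j + 1) : ℝ) : ℂ)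
          * ((Real.pi ^ 2 * t * Real.exp (-(Real.pi * t) * ‖ξ‖ ^ 2) : ℝ) : ℂ)
        * fh f ξ * Complex.exp (2 * (Real.pi : ℂ) * Complex.I * ((inner ℝ x ξ : ℝ) : ℂ)) := by
    intro t ht
    have h1 : ∫ y : E3, ((Real.pi ^ 2 * t * Gt t j (x - y) * f y : ℝ) : ℂ)
        = ((Real.pi ^ 2 * t : ℝ) : ℂ) * ∫ y : E3, ((Gt t j (x - y) * f y : ℝ) : ℂ) := by
      rw [← integral_const_mul]
      refine integral_congr_ae (Filter.Eventually.of_forall fun y => ?_)
      simp only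
      push_cast
      ring
    rw [h1, ← fixed_time hf hc x j ht, ← integral_const_mul]
    refine integral_congr_ae (Filter.Eventually.of_forall fun ξ => ?_)
    simp only
    push_cast
    ring
  have hneξ : ∀ᵐ ξ : E3, ξ ≠ 0 := by
    have : ({0}ᶜ : Set E3) ∈ ae (volume : Measure E3) := by
      rw [mem_ae_iff, compl_compl]
      exact measure_singleton 0
    filter_upwards [this] with y hy h
    exact hy (by simpa using h)
  have hswap2 : ∫ t in Ioi (0 : ℝ), ∫ ξ : E3, ((ξ j * ξ (j + 1) : ℝ) : ℂ)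
          * ((Real.pi ^ 2 * t * Real.exp (-(Real.pi * t) * ‖ξ‖ ^ 2) : ℝ) : ℂ)
        * fh f ξ * Complex.exp (2 * (Real.pi : ℂ) * Complex.I * ((inner ℝ x ξ : ℝ) : ℂ))
      = ∫ ξ : E3, ∫ t in Ioi (0 : ℝ), ((ξ j * ξ (j + 1) : ℝ) : ℂ)
          * ((Real.pi ^ 2 * t * Real.exp (-(Real.pi * t) * ‖ξ‖ ^ 2) : ℝ) : ℂ)
        * fh f ξ * Complex.exp (2 * (Real.pi : ℂ) * Complex.I * ((inner ℝ x ξ : ℝ) : ℂ)) := by
    symm
    rw [integral_integral_swap]
    have hmeas : AEStronglyMeasurable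
        (Function.uncurry fun (ξ : E3) (t : ℝ) => ((ξ j * ξ (j + 1) : ℝ) : ℂ)
          * ((Real.pi ^ 2 * t * Real.exp (-(Real.pi * t) * ‖ξ‖ ^ 2) : ℝ) : ℂ)
        * fh f ξ * Complex.exp (2 * (Real.pi : ℂ) * Complex.I * ((inner ℝ x ξ : ℝ) : ℂ)))
        ((volume : Measure E3).prod ((volume : Measure ℝ).restrict (Ioi 0))) := by
      refine Continuous.aestronglyMeasurable ?_
      have hfh := continuous_fh hf hc
      simp only [Function.uncurry_def]
      fun_prop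
    rw [integrable_prod_iff hmeas]
    constructor
    · filter_upwards [hneξ] with ξ hξ
      have h30 : Integrable (fun t : ℝ =>
          ((Real.pi ^ 2 * t * Real.exp (-(Real.pi * t) * ‖ξ‖ ^ 2) : ℝ) : ℂ))
          ((volume : Measure ℝ).restrict (Ioi 0)) := (int_freq hξ).1.ofReal (𝕜 := ℂ)
      have h3 := (h30.const_mul ((ξ j * ξ (j + 1) : ℝ) : ℂ)).mul_const
        (fh f ξ * Complex.exp (2 * (Real.pi : ℂ) * Complex.I * ((inner ℝ x ξ : ℝ) : ℂ)))
      refine h3.congr (Filter.Eventually.of_forall fun t => ?_)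
      simp only [Function.uncurry]
      push_cast
      ring
    · refine (integrable_mult hf hc j).congr ?_
      filter_upwards [hneξ] with ξ hξ
      have h4 : ∀ t ∈ Ioi (0 : ℝ), ‖Function.uncurry (fun (ξ : E3) (t : ℝ) =>
          ((ξ j * ξ (j + 1) : ℝ) : ℂ)
          * ((Real.pi ^ 2 * t * Real.exp (-(Real.pi * t) * ‖ξ‖ ^ 2) : ℝ) : ℂ)
        * fh f ξ * Complex.exp (2 * (Real.pi : ℂ) * Complex.I * ((inner ℝ x ξ : ℝ) : ℂ))) (ξ, t)‖
          = (|ξ j * ξ (j + 1)| * ‖fh f ξ‖)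
            * (Real.pi ^ 2 * t * Real.exp (-(Real.pi * t) * ‖ξ‖ ^ 2)) := by
        intro t ht
        have ht' : (0 : ℝ) < t := ht
        simp only [Function.uncurry, norm_mul, Complex.norm_real, Real.norm_eq_abs]
        have h5 : ‖Complex.exp (2 * (Real.pi : ℂ) * Complex.I * ((inner ℝ x ξ : ℝ) : ℂ))‖ = 1 := by
          rw [Complex.norm_exp]
          simp
        simp only [h5, abs_mul, abs_of_pos (Real.exp_pos _), abs_of_pos ht']
        rw [abs_of_pos (by positivity : (0 : ℝ) < Real.pi ^ 2)]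
        ring
      rw [setIntegral_congr_fun measurableSet_Ioi h4, integral_const_mul, (int_freq hξ).2]
      ring
  rw [hS, hswap1, setIntegral_congr_fun measurableSet_Ioi hmid, hswap2]
  refine integral_congr_ae ?_
  filter_upwards [hneξ] with ξ hξ
  have h6 : ∀ t : ℝ, ((ξ j * ξ (j + 1) : ℝ) : ℂ)
          * ((Real.pi ^ 2 * t * Real.exp (-(Real.pi * t) * ‖ξ‖ ^ 2) : ℝ) : ℂ)
        * fh f ξ * Complex.exp (2 * (Real.pi : ℂ) * Complex.I * ((inner ℝ x ξ : ℝ) : ℂ))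
      = (((ξ j * ξ (j + 1) : ℝ) : ℂ) * fh f ξ
          * Complex.exp (2 * (Real.pi : ℂ) * Complex.I * ((inner ℝ x ξ : ℝ) : ℂ)))
        * ((Real.pi ^ 2 * t * Real.exp (-(Real.pi * t) * ‖ξ‖ ^ 2) : ℝ) : ℂ) := by
    intro t
    ring
  simp_rw [h6]
  rw [integral_const_mul, integral_complex_ofReal, (int_freq hξ).2]
  push_cast
  ring

end J4H82.MZ
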