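import Pool.Agent.J4H82.MZ.Mult

set_option autoImplicit false

open MeasureTheory Set Filter Topology

namespace J4H82.MZ

/-- the nonlinearity -/
noncomputable def Ph (y : Fin 3 → ℝ) : ℝ := (max 0 (min (min (y 0) (y 1)) (y 2))) ^ 3

lemma locallyLipschitz_Ph : LocallyLipschitz Ph := by
  have h1 : LocallyLipschitz (fun y : Fin 3 → ℝ => max 0 (min (min (y 0) (y 1)) (y 2))) := by
    have he : ∀ i : Fin 3, LocallyLipschitz (fun y : Fin 3 → ℝ => y i) := fun i =>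
      (LipschitzWith.eval (α := fun _ : Fin 3 => ℝ) i).locallyLipschitz
    exact ((((he 0).min (he 1)).min (he 2)).const_max 0)
  have h2 : LocallyLipschitz (fun s : ℝ => s ^ 3) :=
    (contDiff_id.pow 3 : ContDiff ℝ 1 (fun s : ℝ => s ^ 3)).locallyLipschitz
  exact h2.comp h1

lemma continuous_Ph : Continuous Ph := locallyLipschitz_Ph.continuous

lemma Ph_nonneg (y : Fin 3 → ℝ) : 0 ≤ Ph y := by
  unfold Ph; positivity

lemma Ph_smul {t : ℝ} (ht : 0 < t) (y : Fin 3 → ℝ) : Ph (t • y) = t ^ 3 * Ph y := by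
  unfold Ph
  simp only [Pi.smul_apply, smul_eq_mul]
  rw [← mul_min_of_nonneg _ _ ht.le, ← mul_min_of_nonneg _ _ ht.le, ← mul_pow,
    mul_max_of_nonneg _ _ ht.le, mul_zero]

lemma Ph_KK (x : E3) : Ph (KK x) = 0 := by
  unfold Ph
  have h : min (min (KK x 0) (KK x 1)) (KK x 2) ≤ 0 := by
    by_contra hc
    push Not at hc
    rw [lt_min_iff, lt_min_iff] at hc
    obtain ⟨⟨h0, h1⟩, h2⟩ := hc
    have h3 : 0 < KK x 0 * KK x 1 * KK x 2 := by positivity
    have h4 : KK x 0 * KK x 1 * KK x 2 = -(cK ^ 3 * (x 0 * x 1 * x 2) ^ 2 / (‖x‖ ^ 3) ^ 3) := by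
      unfold KK
      have e1 : (0 : Fin 3) + 1 = 1 := rfl
      have e2 : (1 : Fin 3) + 1 = 2 := rfl
      have e3 : (2 : Fin 3) + 1 = 0 := rfl
      rw [e1, e2, e3]
      ring
    have h5 : 0 ≤ cK ^ 3 * (x 0 * x 1 * x 2) ^ 2 / (‖x‖ ^ 3) ^ 3 := by
      have := cK_pos
      positivity
    linarith
  rw [max_eq_left h]
  norm_num

lemma Ph_le {M : ℝ} {y : Fin 3 → ℝ} (hM : 0 ≤ M) (hy : |y 0| ≤ M) : Ph y ≤ M ^ 3 := by
  unfold Ph
  have h : max 0 (min (min (y 0) (y 1)) (y 2)) ≤ M := by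
    refine max_le hM ?_
    exact (min_le_left _ _).trans ((min_le_left _ _).trans ((le_abs_self _).trans hy))
  exact pow_le_pow_left₀ (le_max_left _ _) h 3

lemma Ph_ge {m : ℝ} {y : Fin 3 → ℝ} (hm : 0 ≤ m) (hy : ∀ i, m ≤ y i) : m ^ 3 ≤ Ph y := by
  unfold Ph
  refine pow_le_pow_left₀ hm ?_ 3
  exact le_max_of_le_right (le_min (le_min (hy 0) (hy 1)) (hy 2))

/-- homogeneity of the kernel -/
lemma KK_smul {t : ℝ} (ht : 0 < t) (x : E3) (j : Fin 3) : KK (t • x) j = t⁻¹ * KK x j := by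
  unfold KK
  rw [norm_smul, Real.norm_eq_abs, abs_of_pos ht]
  simp only [PiLp.smul_apply, smul_eq_mul]
  by_cases hx : ‖x‖ = 0
  · simp [hx]
  · field_simp

lemma continuousOn_KK : ContinuousOn KK {x : E3 | x ≠ 0} := by
  rw [continuousOn_pi]
  intro j
  unfold KK
  have : ∀ x ∈ {x : E3 | x ≠ 0}, ‖x‖ ^ 3 ≠ 0 := by
    intro x hx
    have : ‖x‖ ≠ 0 := norm_ne_zero_iff.2 hx
    positivity
  refine ContinuousOn.neg (ContinuousOn.div ?_ ?_ this)
  · exact Continuous.continuousOn (by fun_prop)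
  · exact Continuous.continuousOn (by fun_prop)

/-- difference estimate -/
lemma KK_sub_le {x y : E3} (j : Fin 3) (hxy : 2 * ‖y‖ ≤ ‖x‖) (hx : 0 < ‖x‖) :
    |KK (x - y) j - KK x j| ≤ cK * (58 * ‖y‖ / ‖x‖ ^ 2) := by
  set u := x - y with hu
  set a := ‖u‖ with ha
  set b := ‖x‖ with hb
  have h1 : b - ‖y‖ ≤ a := by
    have := norm_sub_norm_le x y
    simpa [ha, hb, hu] using this
  have h2 : a ≤ b + ‖y‖ := norm_sub_le x y
  have hy0 : 0 ≤ ‖y‖ := norm_nonneg y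
  have ha1 : b / 2 ≤ a := by linarith
  have ha2 : a ≤ 3 / 2 * b := by linarith
  have ha0 : 0 < a := by linarith
  have hab : |b - a| ≤ ‖y‖ := by rw [abs_le]; constructor <;> linarith
  have hnum : |u j * u (j + 1) - x j * x (j + 1)| ≤ ‖y‖ * (a + b) := by
    have e1 : u j * u (j + 1) - x j * x (j + 1)
        = (u j - x j) * u (j + 1) + x j * (u (j + 1) - x (j + 1)) := by ring
    have e2 : ∀ i, u i - x i = -(y i) := by
      intro i
      simp [hu]
    rw [e1, e2, e2]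
    calc |-(y j) * u (j + 1) + x j * -(y (j + 1))|
        ≤ |-(y j) * u (j + 1)| + |x j * -(y (j + 1))| := abs_add_le _ _
      _ = |y j| * |u (j + 1)| + |x j| * |y (j + 1)| := by
          rw [abs_mul, abs_mul, abs_neg, abs_neg]
      _ ≤ ‖y‖ * a + b * ‖y‖ := by
          have := abs_coord_le y j
          have := abs_coord_le y (j + 1)
          have := abs_coord_le u (j + 1)
          have := abs_coord_le x j
          gcongr
      _ = _ := by ring
  have hden : |1 / a ^ 3 - 1 / b ^ 3| ≤ ‖y‖ * ((a ^ 2 + a * b + b ^ 2) / (a ^ 3 * b ^ 3)) := by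
    have e1 : 1 / a ^ 3 - 1 / b ^ 3 = (b - a) * ((a ^ 2 + a * b + b ^ 2) / (a ^ 3 * b ^ 3)) := by
      field_simp
      ring
    rw [e1, abs_mul, abs_of_nonneg (by positivity : 0 ≤ (a ^ 2 + a * b + b ^ 2) / (a ^ 3 * b ^ 3))]
    gcongr
  have e3 : KK u j - KK x j = -(cK * ((u j * u (j + 1) - x j * x (j + 1)) * (1 / a ^ 3)
      + (x j * x (j + 1)) * (1 / a ^ 3 - 1 / b ^ 3))) := by
    unfold KK
    ring
  rw [e3, abs_neg, abs_mul, abs_of_pos cK_pos]
  refine mul_le_mul_of_nonneg_left ?_ cK_pos.le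
  calc |(u j * u (j + 1) - x j * x (j + 1)) * (1 / a ^ 3)
      + (x j * x (j + 1)) * (1 / a ^ 3 - 1 / b ^ 3)|
      ≤ |(u j * u (j + 1) - x j * x (j + 1)) * (1 / a ^ 3)|
        + |(x j * x (j + 1)) * (1 / a ^ 3 - 1 / b ^ 3)| := abs_add_le _ _
    _ = |u j * u (j + 1) - x j * x (j + 1)| * (1 / a ^ 3)
        + |x j * x (j + 1)| * |1 / a ^ 3 - 1 / b ^ 3| := by
        rw [abs_mul, abs_mul, abs_of_nonneg (by positivity : 0 ≤ 1 / a ^ 3)]
    _ ≤ (‖y‖ * (a + b)) * (1 / a ^ 3)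
        + b ^ 2 * (‖y‖ * ((a ^ 2 + a * b + b ^ 2) / (a ^ 3 * b ^ 3))) := by
        have := abs_coord_mul_le x j (j + 1)
        gcongr
    _ = ‖y‖ * ((a + b) / a ^ 3 + (a ^ 2 + a * b + b ^ 2) / (a ^ 3 * b)) := by
        field_simp
    _ ≤ ‖y‖ * (20 / b ^ 2 + 38 / b ^ 2) := by
        have hb0 : 0 < b := hx
        have h3 : (b / 2) ^ 3 ≤ a ^ 3 := pow_le_pow_left₀ (by positivity) ha1 3
        have h4 : (a + b) / a ^ 3 ≤ 20 / b ^ 2 := by
          rw [div_le_div_iff₀ (by positivity) (by positivity)]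
          nlinarith [pow_pos hb0 2, mul_pos hb0 hb0]
        have h5 : (a ^ 2 + a * b + b ^ 2) / (a ^ 3 * b) ≤ 38 / b ^ 2 := by
          rw [div_le_div_iff₀ (by positivity) (by positivity)]
          have h6 : a ^ 2 ≤ (3 / 2 * b) ^ 2 := pow_le_pow_left₀ ha0.le ha2 2
          have h7 : a * b ≤ 3 / 2 * b * b := by gcongr
          have h8 : a ^ 2 + a * b + b ^ 2 ≤ 19 / 4 * b ^ 2 := by nlinarith
          calc (a ^ 2 + a * b + b ^ 2) * b ^ 2 ≤ (19 / 4 * b ^ 2) * b ^ 2 := by gcongr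
            _ = 38 * ((b / 2) ^ 3 * b) := by ring
            _ ≤ 38 * (a ^ 3 * b) := by gcongr
        gcongr
    _ = 58 * ‖y‖ / b ^ 2 := by ring

end J4H82.MZ
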