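import Mathlib

set_option autoImplicit false

open MeasureTheory Set

namespace J4H82.MZ

lemma intble_t {r : ℝ} (hr : 0 < r) :
    IntegrableOn (fun t : ℝ => t * Real.exp (-(r * t))) (Ioi 0) := by
  have h := integrableOn_rpow_mul_exp_neg_mul_rpow (s := 1) (p := 1) (b := r)
    (by norm_num) one_pos hr
  refine h.congr_fun (fun t _ => ?_) measurableSet_Ioi
  simp

lemma int_t {r : ℝ} (hr : 0 < r) :
    ∫ t in Ioi (0 : ℝ), t * Real.exp (-(r * t)) = 1 / r ^ 2 := by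
  have h := Real.integral_rpow_mul_exp_neg_mul_Ioi (a := 2) (by norm_num : (0 : ℝ) < 2) hr
  have h2 : Real.Gamma 2 = 1 := Real.Gamma_two
  rw [h2, mul_one] at h
  have h3 : (1 / r) ^ (2 : ℝ) = 1 / r ^ 2 := by
    rw [show (2 : ℝ) = ((2 : ℕ) : ℝ) by norm_num, Real.rpow_natCast]
    rw [div_pow, one_pow]
  rw [h3] at h
  rw [← h]
  refine setIntegral_congr_fun measurableSet_Ioi (fun t _ => ?_)
  have : (2 : ℝ) - 1 = 1 := by norm_num
  simp [this]

lemma rpow_aux {x : ℝ} (hx : 0 < x) (r : ℝ) :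
    (|(-1 : ℝ)| * x ^ ((-1 : ℝ) - 1)) • ((x ^ (-1 : ℝ)) ^ ((3 / 2 : ℝ) - 1)
      * Real.exp (-(r * x ^ (-1 : ℝ)))) = x ^ (-(5 / 2) : ℝ) * Real.exp (-(r / x)) := by
  have h1 : (x ^ (-1 : ℝ)) ^ ((3 / 2 : ℝ) - 1) = x ^ (-(1 / 2) : ℝ) := by
    rw [← Real.rpow_mul hx.le]; norm_num
  have h2 : x ^ (-1 : ℝ) = 1 / x := by
    rw [Real.rpow_neg_one, one_div]
  rw [h1, h2, smul_eq_mul]
  have h3 : x ^ ((-1 : ℝ) - 1) * x ^ (-(1 / 2) : ℝ) = x ^ (-(5 / 2) : ℝ) := by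
    rw [← Real.rpow_add hx]; norm_num
  have h4 : r * (1 / x) = r / x := by ring
  rw [h4, ← h3]
  simp only [abs_neg, abs_one, one_mul]
  ring

lemma intble_x {r : ℝ} (hr : 0 < r) :
    IntegrableOn (fun t : ℝ => t ^ (-(5 / 2) : ℝ) * Real.exp (-(r / t))) (Ioi 0) := by
  have h0 : IntegrableOn (fun t : ℝ => t ^ ((3 / 2 : ℝ) - 1) * Real.exp (-(r * t))) (Ioi 0) := by
    have h := integrableOn_rpow_mul_exp_neg_mul_rpow (s := (3 / 2 : ℝ) - 1) (p := 1) (b := r)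
      (by norm_num) one_pos hr
    refine h.congr_fun (fun t _ => ?_) measurableSet_Ioi
    simp
  have h := (integrableOn_Ioi_comp_rpow_iff
    (fun t : ℝ => t ^ ((3 / 2 : ℝ) - 1) * Real.exp (-(r * t))) (p := -1) (by norm_num)).2 h0
  refine h.congr_fun (fun t ht => ?_) measurableSet_Ioi
  exact rpow_aux ht r

lemma int_x {r : ℝ} (hr : 0 < r) :
    ∫ t in Ioi (0 : ℝ), t ^ (-(5 / 2) : ℝ) * Real.exp (-(r / t))
      = (1 / r) ^ (3 / 2 : ℝ) * Real.Gamma (3 / 2) := by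
  have h := Real.integral_rpow_mul_exp_neg_mul_Ioi (a := 3 / 2) (by norm_num : (0 : ℝ) < 3 / 2) hr
  have h5 := integral_comp_rpow_Ioi
    (fun t : ℝ => t ^ ((3 / 2 : ℝ) - 1) * Real.exp (-(r * t))) (by norm_num : (-1 : ℝ) ≠ 0)
  rw [← h, ← h5]
  refine setIntegral_congr_fun measurableSet_Ioi (fun t ht => ?_)
  exact (rpow_aux ht r).symm

/-- the one dimensional modulated Gaussian -/
noncomputable def gs (b x v : ℝ) : ℂ :=
  Complex.exp (-(b : ℂ) * (v : ℂ) ^ 2 + 2 * Real.pi * Complex.I * x * v)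

lemma norm_gs (b x v : ℝ) : ‖gs b x v‖ = Real.exp (-b * v ^ 2) := by
  rw [gs, Complex.norm_exp]
  congr 1
  simp [pow_two]

lemma continuous_gs (b x : ℝ) : Continuous (gs b x) := by
  unfold gs; fun_prop

lemma integrable_gs {b : ℝ} (hb : 0 < b) (x : ℝ) : Integrable (gs b x) := by
  refine (integrable_exp_neg_mul_sq hb).mono' (continuous_gs b x).aestronglyMeasurable ?_
  filter_upwards with v
  rw [norm_gs]

lemma integrable_mul_gs {b : ℝ} (hb : 0 < b) (x : ℝ) :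
    Integrable (fun v : ℝ => (v : ℂ) * gs b x v) := by
  refine (integrable_mul_exp_neg_mul_sq hb).norm.mono'
    (Complex.continuous_ofReal.mul (continuous_gs b x)).aestronglyMeasurable ?_
  filter_upwards with v
  rw [norm_mul, norm_gs, norm_mul, Complex.norm_real, Real.norm_eq_abs, Real.norm_eq_abs]
  gcongr
  exact le_abs_self _

lemma hasDerivAt_gs (b x v : ℝ) :
    HasDerivAt (gs b x) ((-(2 * b : ℂ) * v + 2 * Real.pi * Complex.I * x) * gs b x v) v := by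
  have h1 : HasDerivAt (fun w : ℂ => Complex.exp (-(b : ℂ) * w ^ 2 + 2 * Real.pi * Complex.I * x * w))
      ((-(2 * b : ℂ) * v + 2 * Real.pi * Complex.I * x) * gs b x v) (v : ℂ) := by
    have h2 : HasDerivAt (fun w : ℂ => -(b : ℂ) * w ^ 2 + 2 * Real.pi * Complex.I * x * w)
        (-(2 * b : ℂ) * v + 2 * Real.pi * Complex.I * x) (v : ℂ) := by
      have h3 := ((hasDerivAt_pow 2 (v : ℂ)).const_mul (-(b : ℂ))).add
        ((hasDerivAt_id (v : ℂ)).const_mul (2 * Real.pi * Complex.I * x : ℂ))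
      convert! h3 using 1
      simp
      ring
    have h4 := h2.cexp
    convert! h4 using 1
    unfold gs
    ring
  exact h1.comp_ofReal

/-- first moment of the modulated Gaussian -/
lemma gauss_one {b : ℝ} (hb : 0 < b) (x : ℝ) :
    ∫ v : ℝ, (v : ℂ) * gs b x v = (Real.pi * Complex.I * x / b) * ∫ v : ℝ, gs b x v := by
  have hi : Integrable (fun v : ℝ => (-(2 * b : ℂ) * v + 2 * Real.pi * Complex.I * x) * gs b x v) := by
    have h1 := ((integrable_mul_gs hb x).const_mul (-(2 * b : ℂ))).add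
      ((integrable_gs hb x).const_mul (2 * Real.pi * Complex.I * x : ℂ))
    refine h1.congr ?_
    filter_upwards with v
    simp only [Pi.add_apply]
    ring
  have h0 := integral_eq_zero_of_hasDerivAt_of_integrable (hasDerivAt_gs b x) hi
    (integrable_gs hb x)
  have h1 : ∫ v : ℝ, (-(2 * b : ℂ) * v + 2 * Real.pi * Complex.I * x) * gs b x v
      = -(2 * b : ℂ) * (∫ v : ℝ, (v : ℂ) * gs b x v)
        + (2 * Real.pi * Complex.I * x : ℂ) * ∫ v : ℝ, gs b x v := by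
    rw [← integral_const_mul, ← integral_const_mul, ← integral_add
      ((integrable_mul_gs hb x).const_mul _) ((integrable_gs hb x).const_mul _)]
    congr 1
    ext v
    ring
  rw [h1] at h0
  have hb' : (b : ℂ) ≠ 0 := by exact_mod_cast hb.ne'
  field_simp
  linear_combination (-1 / 2 : ℂ) * h0

lemma gauss_zero {b : ℝ} (hb : 0 < b) (x : ℝ) :
    ∫ v : ℝ, gs b x v = (Real.pi / b : ℂ) ^ (1 / 2 : ℂ)
      * Complex.exp (-(Real.pi : ℂ) ^ 2 * x ^ 2 / b) := by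
  have hre : (-(b : ℂ)).re < 0 := by simpa using hb
  have h := integral_cexp_quadratic hre (2 * Real.pi * Complex.I * x : ℂ) 0
  have hb' : (b : ℂ) ≠ 0 := by exact_mod_cast hb.ne'
  simp only [add_zero, zero_sub] at h
  unfold gs
  rw [h]
  congr 2
  · simp
  · field_simp
    ring_nf
    simp
    try ring

/-- the three dimensional space -/
abbrev E3 := EuclideanSpace ℝ (Fin 3)

lemma gauss_zero' {b : ℝ} (hb : 0 < b) (x : ℝ) :
    ∫ v : ℝ, gs b x v = (((Real.pi / b) ^ (1 / 2 : ℝ)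
      * Real.exp (-Real.pi ^ 2 * x ^ 2 / b) : ℝ) : ℂ) := by
  rw [gauss_zero hb x]
  have h : (0 : ℝ) ≤ Real.pi / b := by positivity
  push_cast
  rw [Complex.ofReal_cpow h]
  push_cast
  rfl

/-- the three dimensional modulated Gaussian -/
noncomputable def g3 (b : ℝ) (x ξ : E3) : ℂ :=
  Complex.exp (-(b : ℂ) * (‖ξ‖ : ℂ) ^ 2 + 2 * Real.pi * Complex.I * ((inner ℝ x ξ : ℝ) : ℂ))

lemma g3_eq (b : ℝ) (x ξ : E3) : g3 b x ξ = ∏ i, gs b (x i) (ξ i) := by
  unfold g3 gs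
  rw [← Complex.exp_sum]
  congr 1
  rw [Finset.sum_add_distrib, ← Finset.mul_sum]
  congr 1
  · congr 1
    rw [EuclideanSpace.norm_eq]
    norm_cast
    rw [Real.sq_sqrt (by positivity)]
    simp
  · rw [PiLp.inner_apply]
    push_cast
    rw [Finset.mul_sum]
    refine Finset.sum_congr rfl (fun i _ => ?_)
    simp
    ring

lemma norm_g3 (b : ℝ) (x ξ : E3) : ‖g3 b x ξ‖ = Real.exp (-b * ‖ξ‖ ^ 2) := by
  rw [g3, Complex.norm_exp]
  congr 1
  simp [pow_two]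

/-- second mixed moment -/
lemma gauss_three {b : ℝ} (hb : 0 < b) (x : E3) (j : Fin 3) :
    ∫ ξ : E3, ((ξ j : ℝ) : ℂ) * ((ξ (j + 1) : ℝ) : ℂ) * g3 b x ξ
      = ((-(Real.pi ^ 2 / b ^ 2 * (x j * x (j + 1)) * ((Real.pi / b) ^ (3 / 2 : ℝ)
          * Real.exp (-Real.pi ^ 2 * ‖x‖ ^ 2 / b))) : ℝ) : ℂ) := by
  rw [← (PiLp.volume_preserving_toLp (Fin 3)).integral_comp
    (MeasurableEquiv.toLp 2 _).measurableEmbedding]
  have h1 : ∀ v : Fin 3 → ℝ, (((WithLp.toLp 2 v : E3) j : ℝ) : ℂ)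
      * (((WithLp.toLp 2 v : E3) (j + 1) : ℝ) : ℂ) * g3 b x (WithLp.toLp 2 v)
      = ∏ i, (fun (i : Fin 3) (w : ℝ) =>
          (if i = j ∨ i = j + 1 then (w : ℂ) else 1) * gs b (x i) w) i (v i) := by
    intro v
    rw [g3_eq]
    simp only [Fin.prod_univ_three]
    fin_cases j <;> simp <;> ring
  have h2 := integral_fintype_prod_volume_eq_prod (fun (i : Fin 3) (w : ℝ) =>
          (if i = j ∨ i = j + 1 then (w : ℂ) else 1) * gs b (x i) w)
  rw [integral_congr_ae (Filter.Eventually.of_forall h1)]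
  refine h2.trans ?_
  have hm : ∀ i : Fin 3, ∫ w : ℝ, (if i = j ∨ i = j + 1 then (w : ℂ) else 1) * gs b (x i) w
      = (if i = j ∨ i = j + 1 then (Real.pi * Complex.I * (x i) / b : ℂ) else 1)
        * ∫ w : ℝ, gs b (x i) w := by
    intro i
    split_ifs with h
    · exact gauss_one hb _
    · simp
  simp_rw [hm, gauss_zero' hb]
  have hn : ‖x‖ ^ 2 = x 0 ^ 2 + x 1 ^ 2 + x 2 ^ 2 := by
    rw [EuclideanSpace.norm_eq, Real.sq_sqrt (by positivity)]
    simp [Fin.sum_univ_three]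
  have hexp : Real.exp (-Real.pi ^ 2 * ‖x‖ ^ 2 / b) = Real.exp (-Real.pi ^ 2 * x 0 ^ 2 / b)
      * Real.exp (-Real.pi ^ 2 * x 1 ^ 2 / b) * Real.exp (-Real.pi ^ 2 * x 2 ^ 2 / b) := by
    rw [← Real.exp_add, ← Real.exp_add, hn]
    congr 1
    ring
  have hpow : (Real.pi / b) ^ (3 / 2 : ℝ) = ((Real.pi / b) ^ (1 / 2 : ℝ)) ^ 3 := by
    rw [← Real.rpow_natCast ((Real.pi / b) ^ (1 / 2 : ℝ)) 3, ← Real.rpow_mul (by positivity)]
    norm_num
  rw [hexp, hpow]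
  have hI : Complex.I ^ 2 = -1 := Complex.I_sq
  simp only [Fin.prod_univ_three]
  set P : ℝ := (Real.pi / b) ^ (1 / 2 : ℝ)
  set e0 := Real.exp (-Real.pi ^ 2 * x 0 ^ 2 / b)
  set e1 := Real.exp (-Real.pi ^ 2 * x 1 ^ 2 / b)
  set e2 := Real.exp (-Real.pi ^ 2 * x 2 ^ 2 / b)
  have hb' : (b : ℂ) ≠ 0 := by exact_mod_cast hb.ne'
  fin_cases j <;> simp <;> push_cast <;> field_simp <;> ring_nf <;> simp [hI] <;> ring

end J4H82.MZ
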