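import Pool.Agent.J4H82.MZ.Scalar

set_option autoImplicit false

open MeasureTheory Set Metric
open scoped Pointwise

namespace J4H82.MZ

/-- coordinate reflection -/
noncomputable def Rf (j : Fin 3) : E3 ≃ₗᵢ[ℝ] E3 :=
  LinearIsometryEquiv.piLpCongrRight 2
    (fun i => if i = j then LinearIsometryEquiv.neg ℝ else LinearIsometryEquiv.refl ℝ ℝ)

lemma Rf_apply (j i : Fin 3) (x : E3) : Rf j x i = if i = j then -(x i) else x i := by
  unfold Rf
  rw [LinearIsometryEquiv.piLpCongrRight_apply]
  simp only
  split_ifs <;> simp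

/-- the induced map of the sphere -/
noncomputable def rho (j : Fin 3) (θ : sphere (0 : E3) 1) : sphere (0 : E3) 1 :=
  ⟨Rf j θ, by simp⟩

lemma continuous_rho (j : Fin 3) : Continuous (rho j) := by
  unfold rho
  exact Continuous.subtype_mk ((Rf j).continuous.comp continuous_subtype_val) _

lemma rho_map (j : Fin 3) :
    (volume : Measure E3).toSphere.map (rho j) = (volume : Measure E3).toSphere := by
  ext s hs
  have hm := (continuous_rho j).measurable
  rw [Measure.map_apply hm hs, Measure.toSphere_apply' _ hs, Measure.toSphere_apply' _ (hm hs)]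
  congr 1
  have hset : Ioo (0 : ℝ) 1 • ((↑) '' (rho j ⁻¹' s) : Set E3)
      = (Rf j) ⁻¹' (Ioo (0 : ℝ) 1 • ((↑) '' s : Set E3)) := by
    ext x
    simp only [Set.mem_smul, mem_preimage]
    constructor
    · rintro ⟨t, ht, y, ⟨θ, hθ, rfl⟩, rfl⟩
      exact ⟨t, ht, Rf j θ, ⟨rho j θ, hθ, rfl⟩, by rw [map_smul]⟩
    · rintro ⟨t, ht, y, ⟨θ, hθ, rfl⟩, hx⟩
      refine ⟨t, ht, (Rf j).symm θ, ⟨⟨(Rf j).symm θ, by simp⟩, ?_, rfl⟩, ?_⟩
      · have : rho j ⟨(Rf j).symm θ, by simp⟩ = θ := by
          ext1
          simp [rho]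
        rw [mem_preimage, this]
        exact hθ
      · apply (Rf j).injective
        rw [map_smul, LinearIsometryEquiv.apply_symm_apply]
        exact hx
  rw [hset]
  exact ((Rf j).measurePreserving).measure_preimage_equiv (f := (Rf j).toMeasurableEquiv) _

/-- the quadratic angular profile -/
def TT (x : E3) (j : Fin 3) : ℝ := x j * x (j + 1)

lemma integral_TT_zero :
    ∫ θ, TT (θ : E3) ∂((volume : Measure E3).toSphere) = 0 := by
  have hcont : ∀ j, Continuous (fun θ : sphere (0 : E3) 1 => TT (θ : E3) j) := by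
    intro j
    unfold TT
    fun_prop
  have hint : ∀ j, Integrable (fun θ : sphere (0 : E3) 1 => TT (θ : E3) j)
      (volume : Measure E3).toSphere := by
    intro j
    refine Integrable.of_bound (hcont j).aestronglyMeasurable 1
      (Filter.Eventually.of_forall fun θ => ?_)
    unfold TT
    rw [Real.norm_eq_abs, abs_mul]
    have h1 : ∀ i, |(θ : E3) i| ≤ 1 := by
      intro i
      have h2 := PiLp.norm_apply_le (θ : E3) i
      have h3 : ‖(θ : E3)‖ = 1 := by simp
      rw [h3] at h2
      simpa using h2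
    exact mul_le_one₀ (h1 _) (abs_nonneg _) (h1 _)
  funext j
  rw [eval_integral hint j]
  simp only [Pi.zero_apply]
  have h1 : ∫ θ, TT (θ : E3) j ∂((volume : Measure E3).toSphere)
      = ∫ θ, TT ((rho j θ : sphere (0 : E3) 1) : E3) j ∂((volume : Measure E3).toSphere) := by
    conv_lhs => rw [← rho_map j]
    rw [integral_map (continuous_rho j).measurable.aemeasurable (hcont j).aestronglyMeasurable]
  have h2 : ∀ θ : sphere (0 : E3) 1, TT ((rho j θ : sphere (0 : E3) 1) : E3) j
      = -TT (θ : E3) j := by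
    intro θ
    unfold TT rho
    simp only [Rf_apply]
    have : j + 1 ≠ j := by fin_cases j <;> decide
    simp [this]
  simp_rw [h2] at h1
  rw [integral_neg] at h1
  linarith

end J4H82.MZ
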